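import Mathlib

/-!
# Project FL (owner helper500, MP_4fffd4_nt): sign patterns of the Liouville function of `K[X]`

Statement file: the definitions and the parts (as `Prop`s) of the proof that over every finite field
of odd characteristic every sign pattern of the Liouville function occurs.
-/

set_option autoImplicit false

namespace Pool.Agent.W500.FL

open Polynomial

/-- The Liouville function of `K[X]`: `(-1)` to the number of irreducible factors of `f`, counted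
with multiplicity. -/
noncomputable def lam {K : Type} [Field K] (f : K[X]) : ℤ :=
  (-1) ^ Multiset.card (UniqueFactorizationMonoid.factors f)

/-- `jac f a` (for monic `f`) is the quadratic character of the resultant of `f` and `a`, i.e. of the
product of the values of `a` at the roots of `f`: the Jacobi symbol of `a` modulo `f`. -/
noncomputable def jac {K : Type} [Field K] [Fintype K] [DecidableEq K] (f a : K[X]) : ℤ :=
  quadraticChar K (Polynomial.resultant f a)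

/-- Basic facts on `lam`. -/
def S_LAM : Prop := ∀ (K : Type) [Field K],
  (∀ f g : K[X], f ≠ 0 → g ≠ 0 → lam (f * g) = lam f * lam g) ∧
  (∀ f : K[X], Irreducible f → lam f = -1) ∧
  (∀ f : K[X], IsUnit f → lam f = 1) ∧
  (∀ f : K[X], lam f = 1 ∨ lam f = -1)

/-- Basic facts on `jac`. -/
def S_J : Prop := ∀ (K : Type) [Field K] [Fintype K] [DecidableEq K],
  (∀ f a b : K[X], f.Monic → jac f (a * b) = jac f a * jac f b) ∧
  (∀ f g a : K[X], f.Monic → g.Monic → jac (f * g) a = jac f a * jac g a) ∧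
  (∀ f a b : K[X], f.Monic → f ∣ a - b → jac f a = jac f b) ∧
  (∀ (f : K[X]) (c : K), f.Monic → jac f (C c) = quadraticChar K c ^ f.natDegree) ∧
  (∀ f g : K[X], f.Monic → g.Monic →
    jac f g = quadraticChar K (-1) ^ (f.natDegree * g.natDegree) * jac g f) ∧
  (∀ f a : K[X], f.Monic → (jac f a ≠ 0 ↔ IsCoprime f a)) ∧
  (∀ f a : K[X], jac f a ≠ 0 → jac f a = 1 ∨ jac f a = -1)

/-- Discriminants of irreducible polynomials (Stickelberger, irreducible case). -/
def S_IRR : Prop := ∀ (K : Type) [Field K] [Fintype K] [DecidableEq K], ringChar K ≠ 2 →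
  ∀ P : K[X], P.Monic → Irreducible P →
    jac P (derivative P) = - (-1) ^ P.natDegree *
      quadraticChar K (-1) ^ (P.natDegree * (P.natDegree - 1) / 2)

/-- Pellet's formula (Stickelberger's theorem). -/
def S_PEL : Prop := ∀ (K : Type) [Field K] [Fintype K] [DecidableEq K], ringChar K ≠ 2 →
  ∀ G : K[X], G.Monic → jac G (derivative G) ≠ 0 →
    lam G = (-1) ^ G.natDegree * quadraticChar K (-1) ^ (G.natDegree * (G.natDegree - 1) / 2)
      * jac G (derivative G)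

/-- The Jacobi symbol modulo a nonconstant squarefree monic polynomial takes both signs. -/
def S_NT : Prop := ∀ (K : Type) [Field K] [Fintype K] [DecidableEq K], ringChar K ≠ 2 →
  ∀ ρ : K[X], ρ.Monic → Squarefree ρ → 0 < ρ.natDegree → ∀ t : ℤ, t = 1 ∨ t = -1 →
    ∃ x : K[X], jac ρ x = t

/-- Chinese remainder theorem with `p`-th powers, `p` the characteristic. -/
def S_FR : Prop := ∀ (K : Type) [Field K] [Fintype K] (p : ℕ) [Fact p.Prime] [CharP K p]
  (V : K[X]) (H : Finset K[X]) (ρ R : K[X] → K[X]),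
  (∀ h ∈ H, (ρ h).Monic ∧ Squarefree (ρ h) ∧ IsCoprime (ρ h) V) →
  (∀ h ∈ H, ∀ k ∈ H, h ≠ k → IsCoprime (ρ h) (ρ k)) →
  ∀ N : ℕ, ∃ Y : K[X], Y.Monic ∧ 4 ∣ Y.natDegree ∧ N ≤ Y.natDegree ∧
    ∀ h ∈ H, ρ h ∣ V ^ p * Y ^ p - R h

/-- The sign of `lam (a * G)` in terms of a Jacobi symbol modulo a factor of the derivative. -/
def S_K : Prop := ∀ (K : Type) [Field K] [Fintype K] [DecidableEq K], ringChar K ≠ 2 →
  ∀ (a b : K[X]) (l m : K), a.Monic → b.Monic → l ≠ 0 → m ≠ 0 →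
  ∃ κ : ℤ, (κ = 1 ∨ κ = -1) ∧ ∀ G Δ : K[X], G.Monic → Δ.Monic →
    derivative (a * G) = b * Δ → a ∣ G - C l → b ∣ G - C l → a ∣ Δ - C m →
    G.natDegree % 4 = (3 * a.natDegree) % 4 → Δ.natDegree % 2 = b.natDegree % 2 →
    jac Δ (a * G) ≠ 0 → lam (a * G) = κ * jac Δ (a * G)

/-- The rough part of a polynomial with derivative one. -/
def S_R : Prop := ∀ (K : Type) [Field K] (u V : K[X]), u.Monic → derivative u = 1 → V.Monic →
  V.natDegree < u.natDegree →
  ∃ σ ρ : K[X], σ.Monic ∧ ρ.Monic ∧ u = σ * ρ ∧ σ ∣ V ∧ IsCoprime ρ V ∧ Squarefree ρ ∧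
    0 < ρ.natDegree

/-- A common multiple with degree divisible by four. -/
def S_V : Prop := ∀ (K : Type) [Field K] (S : Finset K[X]), (∀ f ∈ S, f ≠ 0) →
  ∃ V : K[X], V.Monic ∧ 4 ∣ V.natDegree ∧ ∀ f ∈ S, f ∣ V

/-- Choice of the target residues. -/
def S_U : Prop := ∀ (K : Type) [Field K] (p : ℕ) [Fact p.Prime] [CharP K p] (H : Finset K[X]),
  ∃ w : K[X] → K[X], (∀ h ∈ H, derivative (w h) = 1) ∧
    (∀ h ∈ H, ∀ k ∈ H, derivative h = derivative k → w h - h = w k - k) ∧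
    (∀ h ∈ H, ∀ k ∈ H, h ≠ k → w h ≠ w k)

/-- The moduli `Δ = (A ^ p + d) / b`, `b` the monic associate of `d`. -/
def S_DEL : Prop := ∀ (K : Type) [Field K] (p : ℕ) [Fact p.Prime] [CharP K p] (V A : K[X]),
  V.Monic → A.Monic → V ∣ A →
  (∀ d : K[X], d ≠ 0 → derivative d ≠ 0 → d ∣ V → derivative d ∣ V →
    d.natDegree < A.natDegree →
    ∃ (Δ b : K[X]) (m : K), m ≠ 0 ∧ b.Monic ∧ d = C m * b ∧ Δ.Monic ∧ b * Δ = A ^ p + d ∧
      V ∣ Δ - C m ∧ Squarefree Δ ∧ IsCoprime Δ V ∧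
      Δ.natDegree + d.natDegree = p * A.natDegree) ∧
  (∀ d e Δ b Δ' b' : K[X], b * Δ = A ^ p + d → b' * Δ' = A ^ p + e → IsCoprime Δ V →
    d - e ∣ V → IsCoprime Δ Δ')

/-- First stage of the construction: the derivative is chosen. -/
def S_STA : Prop := ∀ (K : Type) [Field K] [Fintype K] [DecidableEq K] (p : ℕ) [Fact p.Prime]
  [CharP K p], ringChar K ≠ 2 → ∀ (H : Finset K[X]) (t : K[X] → ℤ),
  (∀ h ∈ H, derivative (derivative h) ≠ 0) → (∀ h ∈ H, t h = 1 ∨ t h = -1) →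
  ∃ (V Y : K[X]) (v : K[X] → K[X]), V.Monic ∧ Y.Monic ∧ 4 ∣ V.natDegree ∧ 4 ∣ Y.natDegree ∧
    (∀ h ∈ H, h ∣ V ∧ derivative h ∣ V ∧ derivative (derivative h) ∣ V ∧
      h.natDegree < (V * Y).natDegree) ∧
    (∀ h ∈ H, ∀ k ∈ H, derivative h ≠ derivative k → derivative h - derivative k ∣ V) ∧
    (∀ h ∈ H, ∀ k ∈ H, derivative h = derivative k → v h = v k) ∧
    (∀ h ∈ H, ∀ (Δ b : K[X]) (m : K), Δ.Monic → b.Monic → derivative h = C m * b →
      b * Δ = (V * Y) ^ p + derivative h → jac Δ (v h + h) = t h)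

/-- The theorem for shifts with non-vanishing second derivative. -/
def S_MAINH : Prop := ∀ (K : Type) [Field K] [Fintype K] [DecidableEq K] (p : ℕ) [Fact p.Prime]
  [CharP K p], ringChar K ≠ 2 → ∀ (H : Finset K[X]) (ε : K[X] → ℤ),
  (∀ h ∈ H, derivative (derivative h) ≠ 0) → (∀ h ∈ H, ε h = 1 ∨ ε h = -1) →
  ∀ N : ℕ, ∃ F : K[X], F.Monic ∧ N ≤ F.natDegree ∧ ∀ h ∈ H, lam (F + h) = ε h

/-- The main theorem: every sign pattern on every finite set of shifts. -/
def S_RES : Prop := ∀ (K : Type) [Field K] [Fintype K], ringChar K ≠ 2 →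
  ∀ (H : Finset K[X]) (ε : K[X] → ℤ), (∀ h ∈ H, ε h = 1 ∨ ε h = -1) →
  ∀ N : ℕ, ∃ F : K[X], F.Monic ∧ N ≤ F.natDegree ∧ ∀ h ∈ H, lam (F + h) = ε h

/-- Block complexity: the number of blocks `(lam (F + h))_{deg h < n}`, `F` monic of degree at
least `n`, is `2 ^ (q ^ n)`. -/
def S_BLOCK : Prop := ∀ (K : Type) [Field K] [Fintype K], ringChar K ≠ 2 → ∀ n : ℕ,
  Set.ncard {w : Polynomial.degreeLT K n → ℤ | ∃ F : K[X], F.Monic ∧ n ≤ F.natDegree ∧
    ∀ h : Polynomial.degreeLT K n, w h = lam (F + (h : K[X]))} = 2 ^ (Fintype.card K ^ n)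

end Pool.Agent.W500.FL
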