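import Pool.Agent.W500.FL.Stm

set_option autoImplicit false

namespace Pool.Agent.W500.FL

open Polynomial

theorem pow_mod_two {e : ℤ} (he : e * e = 1) {i j : ℕ} (h : i % 2 = j % 2) : e ^ i = e ^ j := by
  have h2 : e ^ 2 = 1 := by rw [sq]; exact he
  rw [← Nat.div_add_mod i 2, ← Nat.div_add_mod j 2, pow_add, pow_add, pow_mul, pow_mul, h2,
    one_pow, one_pow, h]

theorem kmain (hL : S_LAM) (hJ : S_J) (hP : S_PEL) : S_K := by
  intro K _ _ _ hK2 a b l m ha hb hl hm
  obtain ⟨J1, J2, J3, J4, J5, J6, J7⟩ := hJ K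
  obtain ⟨L1, L2, L3, L4⟩ := hL K
  have chi_ne : ∀ c : K, c ≠ 0 → quadraticChar K c * quadraticChar K c = 1 := by
    intro c hc
    rcases quadraticChar_dichotomy hc with h | h <;> rw [h] <;> norm_num
  set e : ℤ := quadraticChar K (-1) with he
  have hee : e * e = 1 := chi_ne (-1) (neg_ne_zero.mpr one_ne_zero)
  have hcl : quadraticChar K l * quadraticChar K l = 1 := chi_ne l hl
  have hcm : quadraticChar K m * quadraticChar K m = 1 := chi_ne m hm
  set N0 : ℕ := 3 * a.natDegree with hN0
  have sqpow : ∀ (x : ℤ), x * x = 1 → ∀ n : ℕ, x ^ n * x ^ n = 1 := by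
    intro x hx n
    rw [← mul_pow, hx, one_pow]
  have pm : ∀ x : ℤ, x * x = 1 → x = 1 ∨ x = -1 := by
    intro x hx
    exact mul_self_eq_one_iff.mp hx
  set κ : ℤ := lam a * (-1) ^ N0 * e ^ (N0 * (N0 - 1) / 2) * e ^ (N0 * a.natDegree) *
    quadraticChar K l ^ a.natDegree * (e ^ (N0 * b.natDegree) * quadraticChar K l ^ b.natDegree) *
    e ^ (N0 * b.natDegree) * (e ^ (a.natDegree * b.natDegree) * quadraticChar K m ^ a.natDegree)
    with hκ
  have hlam : lam a * lam a = 1 := by
    rcases L4 a with h | h <;> rw [h] <;> norm_num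
  have hneg : ((-1 : ℤ) ^ N0) * (-1) ^ N0 = 1 := sqpow (-1) (by norm_num) _
  have hκ2 : κ * κ = 1 := by
    have h1 := sqpow e hee (N0 * (N0 - 1) / 2)
    have h2 := sqpow e hee (N0 * a.natDegree)
    have h3 := sqpow _ hcl a.natDegree
    have h4 := sqpow e hee (N0 * b.natDegree)
    have h5 := sqpow _ hcl b.natDegree
    have h6 := sqpow e hee (a.natDegree * b.natDegree)
    have h7 := sqpow _ hcm a.natDegree
    have : κ * κ = (lam a * lam a) * ((-1) ^ N0 * (-1) ^ N0) *
        (e ^ (N0 * (N0 - 1) / 2) * e ^ (N0 * (N0 - 1) / 2)) *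
        (e ^ (N0 * a.natDegree) * e ^ (N0 * a.natDegree)) *
        (quadraticChar K l ^ a.natDegree * quadraticChar K l ^ a.natDegree) *
        ((e ^ (N0 * b.natDegree) * e ^ (N0 * b.natDegree)) *
        (quadraticChar K l ^ b.natDegree * quadraticChar K l ^ b.natDegree)) *
        (e ^ (N0 * b.natDegree) * e ^ (N0 * b.natDegree)) *
        ((e ^ (a.natDegree * b.natDegree) * e ^ (a.natDegree * b.natDegree)) *
        (quadraticChar K m ^ a.natDegree * quadraticChar K m ^ a.natDegree)) := by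
      rw [hκ]; ring
    rw [this, hlam, hneg, h1, h2, h3, h4, h5, h6, h7]
    norm_num
  refine ⟨κ, pm κ hκ2, ?_⟩
  intro G Δ hG hΔ hder haG hbG haΔ hN hD hne
  -- the symbols
  have e1 : jac G a = e ^ (G.natDegree * a.natDegree) * quadraticChar K l ^ a.natDegree := by
    rw [J5 G a hG ha, J3 a G (C l) ha haG, J4 a l ha]
  have e2 : jac G b = e ^ (G.natDegree * b.natDegree) * quadraticChar K l ^ b.natDegree := by
    rw [J5 G b hG hb, J3 b G (C l) hb hbG, J4 b l hb]
  have e3 : jac G a * jac G (derivative G) = jac G b * jac G Δ := by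
    rw [← J1 G a _ hG, ← J1 G b _ hG, ← hder]
    refine J3 G _ _ hG ?_
    rw [derivative_mul]
    exact ⟨-derivative a, by ring⟩
  have e4 : jac G Δ = e ^ (G.natDegree * Δ.natDegree) * jac Δ G := J5 G Δ hG hΔ
  have e5 : jac Δ (a * G) = jac Δ a * jac Δ G := J1 Δ a G hΔ
  have e6 : jac Δ a = e ^ (Δ.natDegree * a.natDegree) * quadraticChar K m ^ a.natDegree := by
    rw [J5 Δ a hΔ ha, J3 a Δ (C m) ha haΔ, J4 a m ha]
  -- parities
  have p1 : e ^ (G.natDegree * a.natDegree) = e ^ (N0 * a.natDegree) := by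
    refine pow_mod_two hee ?_
    rw [Nat.mul_mod, Nat.mul_mod N0]
    have : G.natDegree % 2 = N0 % 2 := by omega
    rw [this]
  have p2 : e ^ (G.natDegree * b.natDegree) = e ^ (N0 * b.natDegree) := by
    refine pow_mod_two hee ?_
    rw [Nat.mul_mod, Nat.mul_mod N0]
    have : G.natDegree % 2 = N0 % 2 := by omega
    rw [this]
  have p3 : e ^ (G.natDegree * Δ.natDegree) = e ^ (N0 * b.natDegree) := by
    refine pow_mod_two hee ?_
    rw [Nat.mul_mod, Nat.mul_mod N0]
    have : G.natDegree % 2 = N0 % 2 := by omega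
    rw [this, hD]
  have p4 : e ^ (Δ.natDegree * a.natDegree) = e ^ (a.natDegree * b.natDegree) := by
    refine pow_mod_two hee ?_
    rw [mul_comm a.natDegree, Nat.mul_mod, Nat.mul_mod b.natDegree, hD]
  have p5 : (-1 : ℤ) ^ G.natDegree = (-1) ^ N0 := by
    refine pow_mod_two (by norm_num) ?_
    omega
  have p6 : e ^ (G.natDegree * (G.natDegree - 1) / 2) = e ^ (N0 * (N0 - 1) / 2) := by
    refine pow_mod_two hee ?_
    have key : ∀ N : ℕ, (N * (N - 1) / 2) % 2 = ((N % 4) * ((N % 4) + 3) / 2) % 2 := by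
      intro N
      obtain ⟨k, r, hr, rfl⟩ : ∃ k r, r < 4 ∧ N = 4 * k + r :=
        ⟨N / 4, N % 4, Nat.mod_lt _ (by norm_num), by omega⟩
      have hmod : (4 * k + r) % 4 = r := by omega
      rw [hmod]
      interval_cases r
      · rcases Nat.eq_zero_or_pos k with rfl | hk
        · simp
        · obtain ⟨j, rfl⟩ : ∃ j, k = j + 1 := ⟨k - 1, by omega⟩
          have : (4 * (j + 1) + 0) * (4 * (j + 1) + 0 - 1) = 2 * (2 * ((j + 1) * (4 * j + 3))) := by
            have : 4 * (j + 1) + 0 - 1 = 4 * j + 3 := by omega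
            rw [this]; ring
          rw [this]; omega
      · have : (4 * k + 1) * (4 * k + 1 - 1) = 2 * (2 * (k * (4 * k + 1))) := by
          have : 4 * k + 1 - 1 = 4 * k := by omega
          rw [this]; ring
        rw [this]; omega
      · have : (4 * k + 2) * (4 * k + 2 - 1) = 2 * (2 * (k * (4 * k + 3)) + 1) := by
          have : 4 * k + 2 - 1 = 4 * k + 1 := by omega
          rw [this]; ring
        rw [this]; omega
      · have : (4 * k + 3) * (4 * k + 3 - 1) = 2 * (2 * (k * (4 * k + 5) + 1) + 1) := by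
          have : 4 * k + 3 - 1 = 4 * k + 2 := by omega
          rw [this]; ring
        rw [this]; omega
    rw [key, key N0, hN]
  -- nonvanishing
  have n1 : jac Δ G ≠ 0 := by
    intro h0; apply hne; rw [e5, h0, mul_zero]
  have n2 : jac Δ G * jac Δ G = 1 := by
    rcases J7 Δ G n1 with h | h <;> rw [h] <;> norm_num
  have q1 : jac G a * jac G a = 1 := by
    rw [e1]
    have h1 := sqpow e hee (G.natDegree * a.natDegree)
    have h2 := sqpow _ hcl a.natDegree
    linear_combination (quadraticChar K l ^ a.natDegree * quadraticChar K l ^ a.natDegree) * h1 + h2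
  have q2 : jac G (derivative G) = jac G a * (jac G b * jac G Δ) := by
    rw [← e3, ← mul_assoc, q1, one_mul]
  have n3 : jac G (derivative G) ≠ 0 := by
    intro h0
    rw [h0] at q2
    have q3 : jac G b * jac G b = 1 := by
      rw [e2]
      have h1 := sqpow e hee (G.natDegree * b.natDegree)
      have h2 := sqpow _ hcl b.natDegree
      linear_combination
        (quadraticChar K l ^ b.natDegree * quadraticChar K l ^ b.natDegree) * h1 + h2
    have q4 : jac G Δ * jac G Δ = 1 := by
      rw [e4]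
      have h1 := sqpow e hee (G.natDegree * Δ.natDegree)
      linear_combination (jac Δ G * jac Δ G) * h1 + n2
    have : (0 : ℤ) = 1 := by
      calc (0 : ℤ) = (jac G a * (jac G b * jac G Δ)) * (jac G a * (jac G b * jac G Δ)) := by
            rw [← q2]; norm_num
        _ = (jac G a * jac G a) * ((jac G b * jac G b) * (jac G Δ * jac G Δ)) := by ring
        _ = 1 := by rw [q1, q3, q4]; norm_num
    exact absurd this (by norm_num)
  have hlamG := hP K hK2 G hG n3
  have q5 : jac Δ a * jac Δ a = 1 := by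
    rw [e6]
    have h1 := sqpow e hee (Δ.natDegree * a.natDegree)
    have h2 := sqpow _ hcm a.natDegree
    linear_combination (quadraticChar K m ^ a.natDegree * quadraticChar K m ^ a.natDegree) * h1 + h2
  have q6 : jac Δ G = jac Δ a * jac Δ (a * G) := by
    rw [e5, ← mul_assoc, q5, one_mul]
  rw [L1 a G ha.ne_zero hG.ne_zero, hlamG, q2, e1, e2, e4, q6, e6, p1, p2, p3, p4, p5]
  rw [← he] 
  rw [p6, hκ]
  ring

end Pool.Agent.W500.FL
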