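import Pool.Agent.W500.FL.Stm

set_option autoImplicit false

namespace Pool.Agent.W500.FL.Two

open Pool.Agent.W500.FL

open Polynomial

/-- The theorem for shifts with non-vanishing second derivative, with divisibility. -/
def S_MAINH2 : Prop := ∀ (K : Type) [Field K] [Fintype K] [DecidableEq K] (p : ℕ) [Fact p.Prime]
  [CharP K p], ringChar K ≠ 2 → ∀ (H : Finset K[X]) (ε : K[X] → ℤ),
  (∀ h ∈ H, derivative (derivative h) ≠ 0) → (∀ h ∈ H, ε h = 1 ∨ ε h = -1) →
  ∀ N : ℕ, ∃ F : K[X], F.Monic ∧ N ≤ F.natDegree ∧ (∀ h ∈ H, h ∣ F) ∧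
    ∀ h ∈ H, lam (F + h) = ε h

/-- Every sign pattern on every finite set of shifts, `F` in the class of `0` modulo `W`. -/
def S_RES2 : Prop := ∀ (K : Type) [Field K] [Fintype K], ringChar K ≠ 2 →
  ∀ (H : Finset K[X]) (ε : K[X] → ℤ), (∀ h ∈ H, ε h = 1 ∨ ε h = -1) →
  ∀ (W : K[X]), W ≠ 0 →
  ∀ N : ℕ, ∃ F : K[X], F.Monic ∧ N ≤ F.natDegree ∧ W ∣ F ∧ ∀ h ∈ H, lam (F + h) = ε h

/-- Every sign pattern along every finite family of pairwise independent linear forms. -/
def S_LIN : Prop := ∀ (K : Type) [Field K] [Fintype K], ringChar K ≠ 2 →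
  ∀ (n : ℕ) (a b : Fin n → K[X]), (∀ i, a i ≠ 0) → (∀ i j, i ≠ j → a i * b j ≠ a j * b i) →
  ∀ (ε : Fin n → ℤ), (∀ i, ε i = 1 ∨ ε i = -1) →
  ∀ N : ℕ, ∃ y : K[X], y.Monic ∧ N ≤ y.natDegree ∧ ∀ i, lam (a i * y + b i) = ε i

theorem monic_eq {K : Type} [Field K] {d b : K[X]} {m : K} (hb : b.Monic) (h : d = C m * b)
    (hm : m ≠ 0) : m = d.leadingCoeff ∧ b = C d.leadingCoeff⁻¹ * d := by
  have h1 : d.leadingCoeff = m := by
    rw [h, leadingCoeff_mul, leadingCoeff_C, hb.leadingCoeff, mul_one]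
  refine ⟨h1.symm, ?_⟩
  rw [h1, h, ← mul_assoc, ← C_mul, inv_mul_cancel₀ hm, C_1, one_mul]

theorem deriv_pow_char {K : Type} [Field K] (p : ℕ) [Fact p.Prime] [CharP K p] (f : K[X]) :
    derivative (f ^ p) = 0 := by
  rw [derivative_pow]
  simp [CharP.cast_eq_zero]

set_option maxHeartbeats 1000000 in
theorem mainh2 (hJ : S_J) (hFR : S_FR) (hK : S_K) (hDEL : S_DEL) (hSTA : S_STA) : S_MAINH2 := by
  intro K _ _ _ p _ _ hp2 H ε hH hε N
  have hJ3 := (hJ K).2.2.1
  have hp : 2 ≤ p := (Fact.out : p.Prime).two_le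
  have hd1 : ∀ h ∈ H, derivative h ≠ 0 := fun h hh h0 => hH h hh (by rw [h0, derivative_zero])
  have hd0 : ∀ h ∈ H, h ≠ 0 := fun h hh h0 => hd1 h hh (by rw [h0, derivative_zero])
  have hκ : ∀ h : K[X], h ∈ H → ∃ κ : ℤ, (κ = 1 ∨ κ = -1) ∧ ∀ G Δ : K[X], G.Monic → Δ.Monic →
      derivative ((C h.leadingCoeff⁻¹ * h) * G) =
        (C (derivative h).leadingCoeff⁻¹ * derivative h) * Δ →
      (C h.leadingCoeff⁻¹ * h) ∣ G - C h.leadingCoeff →
      (C (derivative h).leadingCoeff⁻¹ * derivative h) ∣ G - C h.leadingCoeff →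
      (C h.leadingCoeff⁻¹ * h) ∣ Δ - C (derivative h).leadingCoeff →
      G.natDegree % 4 = (3 * (C h.leadingCoeff⁻¹ * h).natDegree) % 4 →
      Δ.natDegree % 2 = (C (derivative h).leadingCoeff⁻¹ * derivative h).natDegree % 2 →
      jac Δ ((C h.leadingCoeff⁻¹ * h) * G) ≠ 0 →
      lam ((C h.leadingCoeff⁻¹ * h) * G) = κ * jac Δ ((C h.leadingCoeff⁻¹ * h) * G) := by
    intro h hh
    refine hK K hp2 (C h.leadingCoeff⁻¹ * h) (C (derivative h).leadingCoeff⁻¹ * derivative h)
      h.leadingCoeff (derivative h).leadingCoeff ?_ ?_ ?_ ?_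
    · have := monic_mul_leadingCoeff_inv (hd0 h hh)
      rwa [mul_comm] at this
    · have := monic_mul_leadingCoeff_inv (hd1 h hh)
      rwa [mul_comm] at this
    · exact leadingCoeff_ne_zero.mpr (hd0 h hh)
    · exact leadingCoeff_ne_zero.mpr (hd1 h hh)
  choose! κ hκ1 hκ2 using hκ
  have ht1 : ∀ h ∈ H, (κ h * ε h) = 1 ∨ (κ h * ε h) = -1 := by
    intro h hh
    rcases hκ1 h hh with h1 | h1 <;> rcases hε h hh with h2 | h2 <;> rw [h1, h2] <;> norm_num
  obtain ⟨V, Y, v, hVm, hYm, hV4, hY4, hdvd, hdiff, hv, ht⟩ :=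
    hSTA K p hp2 H (fun h => κ h * ε h) hH ht1
  have hAm : (V * Y).Monic := hVm.mul hYm
  obtain ⟨hD1, hD2⟩ := hDEL K p V (V * Y) hVm hAm (dvd_mul_right V Y)
  classical
  have hrep : ∀ d : K[X], d ∈ H.image derivative → ∃ h : K[X], h ∈ H ∧ derivative h = d := by
    intro d hd
    obtain ⟨h, hh, e⟩ := Finset.mem_image.mp hd
    exact ⟨h, hh, e⟩
  choose! rep hrep1 hrep2 using hrep
  have hDe : ∀ d : K[X], d ∈ H.image derivative → ∃ (Δ b : K[X]) (m : K), m ≠ 0 ∧ b.Monic ∧
      d = C m * b ∧ Δ.Monic ∧ b * Δ = (V * Y) ^ p + d ∧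
      V ∣ Δ - C m ∧ Squarefree Δ ∧ IsCoprime Δ V ∧
      Δ.natDegree + d.natDegree = p * (V * Y).natDegree := by
    intro d hd
    have h1 := hrep1 d hd
    have h2 := hrep2 d hd
    obtain ⟨q1, q2, q3, q4⟩ := hdvd _ h1
    rw [h2] at q2 q3
    refine hD1 d ?_ ?_ q2 q3 ?_
    · rw [← h2]; exact hd1 _ h1
    · rw [← h2]; exact hH _ h1
    · calc d.natDegree = (derivative (rep d)).natDegree := by rw [h2]
        _ ≤ (rep d).natDegree - 1 := natDegree_derivative_le _
        _ ≤ (rep d).natDegree := Nat.sub_le _ _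
        _ < _ := q4
  choose! Δ bb mm hmm hbm hdm hΔm hbΔ hVΔ hΔs hΔV hΔd using hDe
  obtain ⟨s, hsm, hs4, hsN, hs⟩ := hFR K p V (H.image derivative) Δ
    (fun d => v (rep d) - X * (V * Y) ^ p)
    (fun d hd => ⟨hΔm d hd, hΔs d hd, hΔV d hd⟩)
    (by
      intro d hd e he hde
      refine hD2 d e (Δ d) (bb d) (Δ e) (bb e) (hbΔ d hd) (hbΔ e he) (hΔV d hd) ?_
      have := hdiff (rep d) (hrep1 d hd) (rep e) (hrep1 e he)
        (by rw [hrep2 d hd, hrep2 e he]; exact hde)
      rwa [hrep2 d hd, hrep2 e he] at this)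
    (N + Y.natDegree + 1)
  have hp1 : p ≠ 0 := by omega
  set F : K[X] := V ^ p * s ^ p + X * (V * Y) ^ p with hF
  have hdegA : (V * Y).natDegree = V.natDegree + Y.natDegree := hVm.natDegree_mul hYm
  have hVs : (V ^ p * s ^ p).Monic := (hVm.pow p).mul (hsm.pow p)
  have hVsd : (V ^ p * s ^ p).natDegree = p * (V.natDegree + s.natDegree) := by
    rw [(hVm.pow p).natDegree_mul (hsm.pow p), hVm.natDegree_pow, hsm.natDegree_pow]; ring
  have hXAm : (X * (V * Y) ^ p).Monic := monic_X.mul (hAm.pow p)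
  have hXAd : (X * (V * Y) ^ p).natDegree = 1 + p * (V.natDegree + Y.natDegree) := by
    rw [monic_X.natDegree_mul (hAm.pow p), hAm.natDegree_pow, natDegree_X, hdegA]
  have hlt : p * (V.natDegree + Y.natDegree) + p ≤ p * (V.natDegree + s.natDegree) := by
    calc p * (V.natDegree + Y.natDegree) + p = p * (V.natDegree + Y.natDegree + 1) := by ring
      _ ≤ _ := Nat.mul_le_mul_left p (by omega)
  have hFm : F.Monic := by
    refine hVs.add_of_left ?_
    refine (degree_lt_degree ?_)
    rw [hVsd, hXAd]; omega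
  have hFd : F.natDegree = p * (V.natDegree + s.natDegree) := by
    rw [← hVsd]
    refine natDegree_add_eq_left_of_natDegree_lt ?_
    rw [hVsd, hXAd]; omega
  have hNF : N ≤ F.natDegree := by
    rw [hFd]
    calc N ≤ 1 * (V.natDegree + s.natDegree) := by omega
      _ ≤ _ := Nat.mul_le_mul_right _ (by omega)
  refine ⟨F, hFm, hNF, ?_, ?_⟩
  · intro h hh
    have q1 := (hdvd h hh).1
    refine q1.trans (dvd_add ?_ ?_)
    · exact (dvd_pow_self V hp1).mul_right _
    · exact ((dvd_mul_right V Y).trans (dvd_pow_self _ hp1)).mul_left _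
  intro h hh
  have hdmem : derivative h ∈ H.image derivative := Finset.mem_image_of_mem _ hh
  obtain ⟨q1, q2, q3, q4⟩ := hdvd h hh
  -- abbreviations
  set d : K[X] := derivative h with hd
  have hl0 : h.leadingCoeff ≠ 0 := leadingCoeff_ne_zero.mpr (hd0 h hh)
  set l : K := h.leadingCoeff with hl
  set a : K[X] := C l⁻¹ * h with ha
  have ham : a.Monic := by
    have := monic_mul_leadingCoeff_inv (hd0 h hh)
    rwa [mul_comm] at this
  have hCla : h = C l * a := by
    rw [ha, ← mul_assoc, ← C_mul, mul_inv_cancel₀ hl0, C_1, one_mul]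
  obtain ⟨hme, hbe⟩ := monic_eq (hbm d hdmem) (hdm d hdmem) (hmm d hdmem)
  have haV : a ∣ V := by
    refine dvd_trans ?_ q1
    exact ⟨C l, by rw [mul_comm]; exact hCla⟩
  have hbV : bb d ∣ V := by
    refine dvd_trans ?_ q2
    exact ⟨C (mm d), by rw [mul_comm]; exact hdm d hdmem⟩
  obtain ⟨c, hc⟩ := haV
  obtain ⟨r, hr⟩ : ∃ r, p = r + 2 := ⟨p - 2, by omega⟩
  have hE : ∃ E : K[X], V ∣ E ∧ a * E = F := by
    refine ⟨c * V ^ (r + 1) * s ^ p + X * (c * Y * (V * Y) ^ (r + 1)), ?_, ?_⟩
    · refine dvd_add ?_ ?_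
      · refine Dvd.dvd.mul_right (Dvd.dvd.mul_left ?_ c) _
        exact dvd_pow_self V (by omega)
      · refine Dvd.dvd.mul_left (Dvd.dvd.mul_left ?_ _) _
        exact (dvd_mul_right V Y).trans (dvd_pow_self _ (by omega))
    · rw [hF]
      have e1 : V ^ p = V * V ^ (r + 1) := by rw [hr]; ring
      have e2 : (V * Y) ^ p = V * Y * (V * Y) ^ (r + 1) := by rw [hr]; ring
      rw [e2]
      rw [e1]
      have e3 : a * (c * V ^ (r + 1) * s ^ p + X * (c * Y * (V * Y) ^ (r + 1)))
        = (a * c) * V ^ (r + 1) * s ^ p + X * ((a * c) * Y * (V * Y) ^ (r + 1)) := by ring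
      rw [e3, ← hc]
  obtain ⟨E, hVE, haE⟩ := hE
  set G : K[X] := E + C l with hG
  have haG : a * G = F + h := by
    rw [hG, mul_add, haE]
    congr 1
    rw [mul_comm]; exact hCla.symm
  have hGsub : G - C l = E := by rw [hG]; ring
  have hhd : h.natDegree < F.natDegree := by
    rw [hFd]
    have : (V * Y).natDegree ≤ p * (V.natDegree + Y.natDegree) := by
      rw [hdegA]; exact Nat.le_mul_of_pos_left _ (by omega)
    omega
  have hFhm : (F + h).Monic := hFm.add_of_left (degree_lt_degree hhd)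
  have hFhd : (F + h).natDegree = p * (V.natDegree + s.natDegree) := by
    rw [← hFd]; exact natDegree_add_eq_left_of_natDegree_lt hhd
  have hGm : G.Monic := by
    refine Monic.of_mul_monic_left ham ?_
    rw [haG]; exact hFhm
  have hder : derivative (a * G) = bb d * Δ d := by
    rw [haG, hbΔ d hdmem, derivative_add, hF, derivative_add, ← mul_pow, deriv_pow_char p,
      derivative_mul, deriv_pow_char p, derivative_X]
    ring
  have hdeg1 : a.natDegree + G.natDegree = p * (V.natDegree + s.natDegree) := by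
    rw [← hFhd, ← haG, ham.natDegree_mul hGm]
  have hFjac : jac (Δ d) (a * G) = κ h * ε h := by
    have e1 := ht h hh (Δ d) (bb d) (mm d) (hΔm d hdmem) (hbm d hdmem) (hdm d hdmem)
      (hbΔ d hdmem)
    rw [← e1, haG]
    refine hJ3 (Δ d) (F + h) (v h + h) (hΔm d hdmem) ?_
    have e2 := hs d hdmem
    have e3 : v (rep d) = v h := by
      refine hv (rep d) (hrep1 d hdmem) h hh ?_
      rw [hrep2 d hdmem]
    rw [e3] at e2
    have e4 : F + h - (v h + h) = V ^ p * s ^ p - (v h - X * (V * Y) ^ p) := by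
      rw [hF]; ring
    rw [e4]; exact e2
  have hne : jac (Δ d) (a * G) ≠ 0 := by
    rw [hFjac]
    rcases ht1 h hh with h1 | h1 <;> rw [h1] <;> norm_num
  have key := hκ2 h hh G (Δ d) hGm (hΔm d hdmem)
  rw [← haG]
  have hbd : C d.leadingCoeff⁻¹ * d = bb d := hbe.symm
  have hbdeg : (bb d).natDegree = d.natDegree := by
    have : d.natDegree = (C (mm d) * bb d).natDegree := by rw [← hdm d hdmem]
    rw [this, natDegree_C_mul (hmm d hdmem)]
  have e := key
    (by show derivative (a * G) = (C d.leadingCoeff⁻¹ * d) * Δ d; rw [hbd]; exact hder)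
    (by show a ∣ G - C l; rw [hGsub]; exact (Dvd.intro c hc.symm).trans hVE)
    (by show (C d.leadingCoeff⁻¹ * d) ∣ G - C l; rw [hbd, hGsub]; exact hbV.trans hVE)
    (by show a ∣ Δ d - C d.leadingCoeff; rw [← hme]
        exact (Dvd.intro c hc.symm).trans (hVΔ d hdmem))
    (by
      show G.natDegree % 4 = (3 * a.natDegree) % 4
      obtain ⟨x, hx⟩ := hV4
      obtain ⟨y, hy⟩ := hs4
      have : p * (V.natDegree + s.natDegree) = 4 * (p * (x + y)) := by rw [hx, hy]; ring
      rw [this] at hdeg1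
      omega)
    (by
      show (Δ d).natDegree % 2 = (C d.leadingCoeff⁻¹ * d).natDegree % 2
      rw [hbd, hbdeg]
      have h1 := hΔd d hdmem
      obtain ⟨x, hx⟩ := hV4
      obtain ⟨y, hy⟩ := hY4
      have : p * (V * Y).natDegree = 4 * (p * (x + y)) := by rw [hdegA, hx, hy]; ring
      rw [this] at h1
      omega)
    hne
  have e' : lam (a * G) = κ h * jac (Δ d) (a * G) := e
  rw [e', hFjac]
  rcases hκ1 h hh with h1 | h1 <;> rw [h1] <;> ring

theorem res2 (hM : S_MAINH2) : S_RES2 := by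
  intro K _ _ hK H ε hε W hW N
  classical
  obtain ⟨p, hp⟩ := CharP.exists K
  have := hp
  have hpp : p.Prime := CharP.char_is_prime K p
  have : Fact p.Prime := ⟨hpp⟩
  have hrc : ringChar K = p := ringChar.eq K p
  have hp2 : p ≠ 2 := by rw [← hrc]; exact hK
  have h2ne : (2 : K) ≠ 0 := by
    intro h2
    have h3 : p ∣ 2 := by
      rw [← CharP.cast_eq_zero_iff K p 2]; exact_mod_cast h2
    exact hp2 ((Nat.prime_dvd_prime_iff_eq hpp Nat.prime_two).mp h3)
  set D : ℕ := H.sup natDegree with hD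
  set m : ℕ := p * (D + 1) with hm
  have hDm : D < m := by
    rw [hm]
    have : D + 1 ≤ p * (D + 1) := Nat.le_mul_of_pos_left _ hpp.pos
    omega
  have hdegh : ∀ h ∈ insert 0 H, h.natDegree < m := by
    intro h hh
    rcases Finset.mem_insert.mp hh with rfl | hh
    · rw [natDegree_zero]; omega
    · exact lt_of_le_of_lt (Finset.le_sup (f := natDegree) hh) hDm
  have hmK : (m : K) = 0 := by rw [hm]; simp [CharP.cast_eq_zero]
  set b : K[X] := W ^ p * X ^ (m + 2) with hb
  have hb1 : derivative b = W ^ p * (C 2 * X ^ (m + 1)) := by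
    rw [hb, derivative_mul, deriv_pow_char p, derivative_X_pow]
    have : ((m + 2 : ℕ) : K) = 2 := by push_cast; rw [hmK]; ring
    rw [this]
    have e : m + 2 - 1 = m + 1 := by omega
    rw [e]; ring
  have hb2 : derivative (derivative b) = W ^ p * (C 2 * X ^ m) := by
    rw [hb1, derivative_mul, deriv_pow_char p, derivative_C_mul, derivative_X_pow]
    have : ((m + 1 : ℕ) : K) = 1 := by push_cast; rw [hmK]; ring
    rw [this]
    have e : m + 1 - 1 = m := by omega
    rw [e, C_1]; ring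
  have hWp : W ^ p ≠ 0 := pow_ne_zero _ hW
  have hb2d : m ≤ (derivative (derivative b)).natDegree := by
    rw [hb2, natDegree_mul hWp (mul_ne_zero (C_ne_zero.mpr h2ne) (pow_ne_zero _ X_ne_zero)),
      natDegree_C_mul h2ne, natDegree_X_pow]
    omega
  obtain ⟨F, hFm, hFN, hFd, hF⟩ := hM K p hK ((insert 0 H).image (fun h => h + b))
    (fun k => if k - b ∈ H then ε (k - b) else 1)
    (by
      intro k hk
      obtain ⟨h, hh, rfl⟩ := Finset.mem_image.mp hk
      intro h0
      rw [derivative_add, derivative_add] at h0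
      have h1 : derivative (derivative b) = - derivative (derivative h) := by
        linear_combination h0
      have h2 : (derivative (derivative b)).natDegree ≤ h.natDegree := by
        rw [h1, natDegree_neg]
        exact (natDegree_derivative_le _).trans ((Nat.sub_le _ _).trans
          ((natDegree_derivative_le _).trans (Nat.sub_le _ _)))
      have h3 := hdegh h hh
      omega)
    (by
      intro k hk
      show (if k - b ∈ H then ε (k - b) else 1) = 1 ∨ (if k - b ∈ H then ε (k - b) else 1) = -1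
      split_ifs with hc
      · exact hε _ hc
      · left; rfl)
    (N + b.natDegree + 1)
  have hlt : b.natDegree < F.natDegree := by omega
  refine ⟨F + b, hFm.add_of_left (degree_lt_degree hlt), ?_, ?_, ?_⟩
  · rw [natDegree_add_eq_left_of_natDegree_lt hlt]; omega
  · have h1 : b ∣ F := hFd b (Finset.mem_image.mpr ⟨0, Finset.mem_insert_self _ _, zero_add b⟩)
    have h2 : W ∣ b := (dvd_pow_self W hpp.ne_zero).mul_right _
    exact dvd_add (h2.trans h1) h2
  · intro h hh
    have := hF (h + b) (Finset.mem_image_of_mem _ (Finset.mem_insert_of_mem hh))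
    simp only [add_sub_cancel_right, if_pos hh] at this
    rw [← this]
    congr 1
    ring

theorem lin (hL : S_LAM) (hR : S_RES2) : S_LIN := by
  intro K _ _ hK n a b ha hab ε hε N
  classical
  obtain ⟨L1, L2, L3, L4⟩ := hL K
  set A : K[X] := ∏ j, a j with hA
  have hA0 : A ≠ 0 := Finset.prod_ne_zero_iff.mpr (fun i _ => ha i)
  have hlc : A.leadingCoeff ≠ 0 := leadingCoeff_ne_zero.mpr hA0
  set c : Fin n → K[X] := fun i => C A.leadingCoeff⁻¹ * ∏ j ∈ Finset.univ.erase i, a j with hc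
  set B : K[X] := C A.leadingCoeff⁻¹ * A with hB
  have hBm : B.Monic := by
    have := monic_mul_leadingCoeff_inv hA0
    rwa [mul_comm] at this
  have hca : ∀ i, c i * a i = B := by
    intro i
    rw [hc, hB, hA]
    simp only
    rw [mul_assoc, Finset.prod_erase_mul _ _ (Finset.mem_univ i)]
  have hc0 : ∀ i, c i ≠ 0 := by
    intro i h0
    have := hca i
    rw [h0, zero_mul] at this
    exact hBm.ne_zero this.symm
  set h : Fin n → K[X] := fun i => c i * b i with hh
  have hinj : Function.Injective h := by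
    intro i j hij
    by_contra hne
    apply hab i j hne
    have e1 : c i * b i = c j * b j := hij
    have e2 : B * (a j * b i) = B * (a i * b j) := by
      calc B * (a j * b i) = (c i * a i) * (a j * b i) := by rw [hca i]
        _ = (c i * b i) * (a i * a j) := by ring
        _ = (c j * b j) * (a i * a j) := by rw [e1]
        _ = (c j * a j) * (a i * b j) := by ring
        _ = B * (a i * b j) := by rw [hca j]
    exact (mul_left_cancel₀ hBm.ne_zero e2).symm
  have hex : ∃ E : K[X] → ℤ, ∀ i, E (h i) = lam (c i) * ε i := by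
    refine ⟨fun k => if hk : ∃ i, h i = k then lam (c hk.choose) * ε hk.choose else 1, ?_⟩
    intro i
    have hk : ∃ j, h j = h i := ⟨i, rfl⟩
    have e : hk.choose = i := hinj hk.choose_spec
    simp only [dif_pos hk]
    rw [e]
  obtain ⟨E, hE⟩ := hex
  obtain ⟨F, hFm, hFN, hBF, hF⟩ := hR K hK (Finset.univ.image h) E
    (by
      intro k hk
      obtain ⟨i, _, rfl⟩ := Finset.mem_image.mp hk
      rw [hE]
      rcases L4 (c i) with h1 | h1 <;> rcases hε i with h2 | h2 <;> rw [h1, h2] <;> norm_num)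
    B hBm.ne_zero (N + B.natDegree + ∑ i, (h i).natDegree + 1)
  obtain ⟨y, hy⟩ := hBF
  have hym : y.Monic := Monic.of_mul_monic_left hBm (by rw [← hy]; exact hFm)
  have hdeg : F.natDegree = B.natDegree + y.natDegree := by rw [hy, hBm.natDegree_mul hym]
  refine ⟨y, hym, by omega, ?_⟩
  intro i
  have h1 := hF (h i) (Finset.mem_image_of_mem _ (Finset.mem_univ i))
  rw [hE] at h1
  have h2 : F + h i = c i * (a i * y + b i) := by
    rw [hy, hh, ← hca i]
    ring
  have h3 : F + h i ≠ 0 := by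
    intro h0
    have h4 : F = - h i := by linear_combination h0
    have h5 : F.natDegree = (h i).natDegree := by rw [h4, natDegree_neg]
    have h6 : (h i).natDegree ≤ ∑ i, (h i).natDegree :=
      Finset.single_le_sum (f := fun i => (h i).natDegree) (fun _ _ => Nat.zero_le _)
        (Finset.mem_univ i)
    omega
  have h4 : a i * y + b i ≠ 0 := by
    intro h0; apply h3; rw [h2, h0, mul_zero]
  rw [h2, L1 _ _ (hc0 i) h4] at h1
  have h5 : lam (c i) ≠ 0 := by
    rcases L4 (c i) with h | h <;> rw [h] <;> norm_num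
  exact mul_left_cancel₀ h5 h1

end Pool.Agent.W500.FL.Two
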