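import Pool.Agent.W500.FL.Stm

set_option autoImplicit false

namespace Pool.Agent.W500.FL

open Polynomial

theorem rmain : S_R := by
  intro K _ u V hu hu1 hV hdeg
  classical
  have hsq : ∀ x : K[X], x * x ∣ u → IsUnit x := by
    rintro x ⟨c, hc⟩
    have : x ∣ derivative u := by
      rw [hc, derivative_mul, derivative_mul]
      exact ⟨2 * derivative x * c + x * derivative c, by ring⟩
    rw [hu1] at this
    exact isUnit_of_dvd_one this
  have hu0 : u ≠ 0 := hu.ne_zero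
  set g : K[X] := EuclideanDomain.gcd u V with hg
  have hgu : g ∣ u := EuclideanDomain.gcd_dvd_left u V
  have hgV : g ∣ V := EuclideanDomain.gcd_dvd_right u V
  have hg0 : g ≠ 0 := fun h0 => hu0 (by rw [h0, zero_dvd_iff] at hgu; exact hgu)
  set σ : K[X] := g * C g.leadingCoeff⁻¹ with hσ
  have hσm : σ.Monic := monic_mul_leadingCoeff_inv hg0
  have hlc : g.leadingCoeff ≠ 0 := leadingCoeff_ne_zero.mpr hg0
  have hgσ : g = σ * C g.leadingCoeff := by
    rw [hσ, mul_assoc, ← C_mul, inv_mul_cancel₀ hlc, C_1, mul_one]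
  have hσg : σ ∣ g := ⟨_, hgσ⟩
  have hgσ' : g ∣ σ := ⟨_, hσ⟩
  obtain ⟨ρ, hρ⟩ := hσg.trans hgu
  have hρm : ρ.Monic := Monic.of_mul_monic_left hσm (by rw [← hρ]; exact hu)
  have hσV : σ ∣ V := hσg.trans hgV
  refine ⟨σ, ρ, hσm, hρm, hρ, hσV, ?_, ?_, ?_⟩
  · rw [← EuclideanDomain.gcd_isUnit_iff]
    set x : K[X] := EuclideanDomain.gcd ρ V with hx
    have hxρ : x ∣ ρ := EuclideanDomain.gcd_dvd_left ρ V
    have hxV : x ∣ V := EuclideanDomain.gcd_dvd_right ρ V
    have hxu : x ∣ u := by rw [hρ]; exact hxρ.mul_left σ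
    have hxσ : x ∣ σ := (EuclideanDomain.dvd_gcd hxu hxV).trans hgσ'
    apply hsq
    rw [hρ]
    exact mul_dvd_mul hxσ hxρ
  · intro x hx
    apply hsq
    rw [hρ]
    exact hx.mul_left σ
  · have h1 : u.natDegree = σ.natDegree + ρ.natDegree := by rw [hρ, hσm.natDegree_mul hρm]
    have h2 : σ.natDegree ≤ V.natDegree := natDegree_le_of_dvd hσV hV.ne_zero
    omega

end Pool.Agent.W500.FL
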