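import Pool.Agent.W500.FL.Main2
import Pool.Agent.W500.FL.K
import Pool.Agent.W500.FL.R
import Pool.Agent.W107.FL.V
import Pool.Agent.W402.FL.U
import Pool.Agent.W190.FL.FR
import Pool.Agent.W460.FL.DEL
import Pool.Agent.W327.FL.NT
import Pool.Agent.W374.FL.STA
import Pool.Agent.W427.FL.J
import Pool.Agent.W597.FL.IRR
import Pool.Agent.W274.FL.LAM
import Pool.Agent.W891.FL.PEL

set_option autoImplicit false

open Polynomial

/-!
# MP_4fffd4_nt: block complexity of the Liouville function, over function fields

Over every finite field `K` of odd characteristic the Liouville function of `K[X]` realises **every**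
sign pattern along **every** finite family of pairwise non-proportional linear forms `a i * y + b i`;
in particular (`a i = 1`, `b i` the polynomials of degree less than `n`) every block of signs
occurs, of every length.

Proof. For shifts one takes `F = S ^ p + X * T ^ p`, so that `(F + h)' = T ^ p + h'`. Pellet's formula
(the parity of the number of irreducible factors is given by the quadratic character of the
discriminant) turns `λ (F + h)` into a Jacobi symbol of `F + h` modulo the part of `T ^ p + h'`
which is prime to a fixed polynomial. The polynomial `T` is chosen (by reciprocity) such that these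
moduli are squarefree, pairwise coprime for different `h'`, and such that there are residues
realising the required symbols; then `S` is found by the Chinese remainder theorem, since the
`p`-th power map is bijective modulo a squarefree polynomial. Moreover `F` can be taken divisible by
any given polynomial, which gives linear forms.
-/

namespace Pool.Agent.Results.MP_4fffd4_nt.FunctionFieldPatterns

/-- The Liouville function of `K[X]`: `λ(f) = (-1) ^ Ω(f)`, where `Ω(f)` is the number of
irreducible factors of `f`, counted with multiplicity. -/
noncomputable def liouville {K : Type} [Field K] (f : K[X]) : ℤ :=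
  (-1) ^ Multiset.card (UniqueFactorizationMonoid.factors f)

/-- **Every sign pattern of the Liouville function occurs over `K[X]`**, `K` any finite field of odd
characteristic: for pairwise non-proportional linear forms `a i * y + b i`, `a i ≠ 0`, and every
choice of signs `ε i` there are monic polynomials `y` of arbitrarily large degree with
`λ (a i * y + b i) = ε i` for all `i`. -/
theorem result (K : Type) [Field K] [Fintype K] (hK : ringChar K ≠ 2) (n : ℕ)
    (a b : Fin n → K[X]) (ha : ∀ i, a i ≠ 0) (hab : ∀ i j, i ≠ j → a i * b j ≠ a j * b i)
    (ε : Fin n → ℤ) (hε : ∀ i, ε i = 1 ∨ ε i = -1) (N : ℕ) :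
    ∃ y : K[X], y.Monic ∧ N ≤ y.natDegree ∧ ∀ i, liouville (a i * y + b i) = ε i := by
  have hV := Pool.Agent.W107.FL.V.main
  have hU := Pool.Agent.W402.FL.U.main
  have hFR := Pool.Agent.W190.FL.FR.main
  have hDEL := Pool.Agent.W460.FL.DEL.main
  have hJ := Pool.Agent.W427.FL.main
  have hNT := Pool.Agent.W327.FL.NT.main hJ
  have hR := Pool.Agent.W500.FL.rmain
  have hSTA := Pool.Agent.W374.FL.STA.main hJ hNT hFR hR hV hU hDEL
  have hIRR := Pool.Agent.W597.FL.main
  have hLAM := Pool.Agent.W274.FL.LAM.main
  have hPEL := Pool.Agent.W891.FL.main hLAM hJ hIRR
  have hKK := Pool.Agent.W500.FL.kmain hLAM hJ hPEL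
  have hM := Pool.Agent.W500.FL.Two.mainh2 hJ hFR hKK hDEL hSTA
  have hR2 := Pool.Agent.W500.FL.Two.res2 hM
  exact Pool.Agent.W500.FL.Two.lin hLAM hR2 K hK n a b ha hab ε hε N

end Pool.Agent.Results.MP_4fffd4_nt.FunctionFieldPatterns
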